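import Pool.Agent.R919.FF.AbelMain

/-!
# MP_ee618e_ag: the Tate conjecture for the products of an arbitrary abelian variety with all but few
ordinary elliptic curves

Let `E_i`, for `i` in any set of indices, be ordinary elliptic curves over an algebraic closure of the
field with `p` elements with pairwise different quadratic fields, which means that they are pairwise
not isogenous.

* Let `A` be **any** abelian variety of dimension `g` over the closure. There is a set `S` of at most
  `g` indices such that for all products `Q` of powers of finitely many `E_i` with `i ∉ S`, all
  powers `V = A^n`, and all `c`, the Tate conjecture for `Q × V` in codimension `c` holds **if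
  and only if** it holds for `V` in the codimensions `j` with `c - dim Q ≤ j ≤ c`. So the Tate
  conjecture for `A^n` is equivalent to the Tate conjecture for all `A^n × ∏ E_i ^ {m_i}`. The same
  is true for all `V` whose Frobenius eigenvalues are generated by those of `A` up to powers of
  `p` and roots, for example for the abelian varieties isogenous to subvarieties of powers of `A`.
* The same is true for an arbitrary variety `U`, with `g` replaced by the rank `R` modulo `p` of the
  group generated by the eigenvalues of Frobenius on its cohomology.

Nothing is assumed on `A`: in particular there can be any number of exotic Tate classes on the powers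
of `A`. The bound is sharp: take for `A` a product of `g` of the elliptic curves.

Of the theory of abelian varieties we use only that the cohomology is generated by `H^1`, of dimension
`2 g`, and the hard Lefschetz theorem. They show that the classes of the Frobenius eigenvalues of `A`
in the rational vector space of the nonzero numbers modulo powers of `p` span a subspace of
dimension at most `g`. The classes for the elliptic curves `E_i` are lines on which the Galois group
acts by different characters, so they are independent, and at most `g` of them have to be left out
in order that the sum of the other ones meets the space for `A` only in zero. Then the Tate classes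
on `Q × V` are sums of external products.
-/

set_option autoImplicit false

open CategoryTheory AlgebraicGeometry

universe u v w

namespace Pool.Agent.Results.MP_ee618e_ag.FewEllipticCurves

open Pool.Agent.H914 Pool.Agent.W534 VarClass Obj WeilCohomology Pool.Agent.R919.FF

theorem result {k : Type u} [Field k] {𝒱 : VarClass k} {ops : CycleOps 𝒱}
    (W : WeilCohomology.{u, v} ops) [IsAlgClosed W.K] (σ : W.K →+* ℂ) (p : ℕ)
    (hp : p.Prime) (Φ : FrobSystem W p) (hRH : ∀ Z : 𝒱.Obj, RiemannHyp Φ σ Z)
    {I : Type w} (E : I → 𝒱.Obj) (a : I → ℤ) (hE : EllipticFamily Φ σ E a) :
    (∀ (A : 𝒱.Obj) (g : ℕ), IsAbelian W A g → SplitOff Φ σ E A g) ∧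
    ∀ (U : 𝒱.Obj) (R : ℕ), RankModLe p (eigenvalues Φ σ U) R → SplitOff Φ σ E U R :=
  final_abelian W σ p hp Φ hRH E a hE

end Pool.Agent.Results.MP_ee618e_ag.FewEllipticCurves
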