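import Pool.Agent.R937.TZ.Geo

/-!
# The Tate conjecture for products of abelian varieties of dimension at most three over finite fields
is a consequence of the Hodge conjecture in codimension two for products of four CM threefolds

Let `p` be a prime number. We consider abelian varieties over finite fields of characteristic `p`
whose simple factors (over an algebraic closure) have dimension at most three, for example the
products of any number of curves of genus at most three; the Newton polygons are arbitrary, no
independence of the eigenvalues of Frobenius is assumed, and the degree of the classes is arbitrary.

**Theorem.** Let `𝒜` be any system of cohomology classes on abelian varieties over finite fields of
characteristic `p` (`TSys`; with coefficients in an algebraically closed field `Ω` of characteristic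
zero) which contains the classes of degree zero and the Tate classes of degree two (divisor classes, by
the theorem of Tate) and is stable under linear combinations, cup products, pull-backs along
homomorphisms and push-forwards along projections. For example `𝒜` may be the system of the classes of
algebraic cycles. The following statements are equivalent.

1. (`AllT`) All Tate classes, of all degrees, over all finite extensions, on all products of any
   number of abelian varieties of dimension at most three, belong to `𝒜`.
2. (`FourT`) The Tate classes of degree **four** on the products of at most **four** abelian varieties
   of dimension at most three belong to `𝒜`.
3. (`FourH`) The **reductions of the Hodge classes** of degree **four** on the products of at most
   **four** complex abelian varieties of CM type of dimension at most three belong to `𝒜`.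

So the Tate conjecture for all products of abelian varieties of dimension at most three over finite
fields of characteristic `p`, in all codimensions, is equivalent to its codimension two case for the
products of at most four of them, which have dimension at most twelve; and it follows, for all `p`, from
the Hodge conjecture in codimension two for the products of at most four abelian varieties of CM type
of dimension at most three.

Abelian varieties over finite fields are, up to isogeny over an extension of the ground field,
reductions of products of abelian varieties of CM type `(E_i, Φ_i)` with Frobenius endomorphism
`π_i ∈ E_i` (Honda, Tate), this is the structure `RedAV`; the dimension of a factor is `[E_i : ℚ] / 2`.

The proof. Let `G` be the Galois group of a large CM field, `c` the complex conjugation and `D` the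
decomposition group of a place above `p`. A CM type of a field of degree at most six gives a function
`f` on `G` with values `1` and `-1`, with `f (c g) = -f g`, which is invariant under a subgroup of
index at most six. By the formula of Shimura and Taniyama the eigenvalues of Frobenius are given, up
to roots of unity, by the averages of `f` over `D`, and the Tate classes belong to the relations
between these averages. We prove (`rl_avg`) that all `ℤ`-linear relations between the averages of such
functions follow from the exact relations `f + f' + f'' + f''' = 0` between **four** such functions,
from the equality of the averages of two functions, and from the vanishing of the average of one
function. The sums over the cosets of a normal subgroup `N` that is not contained in the stabilizer of
`f` are combinations of quadratic characters (`split`, `av_split`); so one can separate the functions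
that are invariant under the normal core of one of the stabilizers from the others, up to functions that
belong to an imaginary quadratic field `K`. The necessary divisibility by three is true, or there is a
sextic field that contains `K` and has a CM type whose average is a third of the average of the type of
`K` (`rel_three`, `av_sK`), and then this also is the average of an exact relation (`third`). The
functions with the same normal core are functions on six points (`rlA_inv`), or they come from the
symmetric group of degree three (`rl_s3A`), where the relations are found by a finite computation, for
all decomposition groups.
-/

set_option autoImplicit false

namespace Pool.Agent.Results.MP_ee618e_ag.FourFactorsCodimensionTwo

open Pool.Agent.W495.TA Pool.Agent.R937.TZ

/-- **The Tate conjecture for abelian varieties with simple factors of dimension at most three** over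
finite fields of characteristic `p` is equivalent to the case of Tate classes of degree four on products
of at most four such factors, and to the case of the reductions of Hodge classes of degree four on
products of at most four abelian varieties of CM type of dimension at most three. -/
theorem result (p : ℕ) [Fact p.Prime] (ν : PadicAlgCl p ≃+* ℂ) (Ω : Type) [Field Ω]
    [IsAlgClosed Ω] [CharZero Ω] (𝒜 : TSys p ν Ω) :
    List.TFAE [AllT 𝒜, FourT 𝒜, FourH 𝒜] := tfae

end Pool.Agent.Results.MP_ee618e_ag.FourFactorsCodimensionTwo
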