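import Pool.Agent.R937.HB.Main

/-!
# The Hodge conjecture in bounded dimension implies the Tate conjecture for abelian varieties over finite
# fields with simple factors of bounded dimension

Over an algebraic closure of the field with `p` elements each abelian variety is isogenous to the
reduction of an abelian variety of CM type (Honda, Tate). So an abelian variety over the field with
`p ^ a` elements is modelled by `RedAV`: a finite product of CM types `(E i, Φ i)` with Weil numbers
`π i ∈ E i` that satisfy the formula of Shimura and Taniyama; its cohomology of degree `k`, with
coefficients in an algebraically closed field `Ω`, consists of the alternating `k`-forms on
`Ω ⊗ H_1`, on which the Frobenius endomorphism acts by `π`.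

**Theorem.** For each `n` there is a number `B`, which depends **only on `n`**, such that for all prime
numbers `p` and all abelian varieties `Y` over finite fields of characteristic `p` whose simple factors
have dimension at most `n / 2` (the CM fields `E i` have degree at most `n`; the number of the factors,
the dimension of `Y`, the Newton polygons and the Galois groups are arbitrary) all Tate classes on `Y`,
over all finite extensions and in all degrees, belong to the smallest system of cohomology classes
`AlgH` which contains

* the Tate classes of degree two (divisor classes, by the theorem of Tate);
* the reductions of the Hodge classes on abelian varieties of CM type **of dimension at most `B`**;

and is stable under linear combinations, cup products, pull-backs along homomorphisms and push-forwards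
along projections of abelian varieties.

So **the Hodge conjecture for abelian varieties of CM type of dimension at most `B (g)` implies the Tate
conjecture for all products, of any length, of abelian varieties of dimension at most `g` over finite
fields, in all codimensions and all characteristics** (specialization of cycles). The theorem of Milne
(Lefschetz motives and the Tate conjecture, 1999) derives the Tate conjecture for abelian varieties over
finite fields from the Hodge conjecture for all abelian varieties of CM type; here only abelian
varieties of bounded dimension are needed: for products of elliptic curves and abelian surfaces, of
abelian threefolds, and so on, one only needs the Hodge conjecture in one fixed dimension. There is no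
elementary reason for a bound, since the Frobenius eigenvalues of arbitrarily many abelian varieties of
bounded dimension can be multiplicatively dependent, without relations between fewer of them.

The proof. A Tate class gives a relation `t_1 + ... + t_k = 0` between functions on the Galois group `G`
of a large CM field; `t_i` is the mean value, over the decomposition group `D`, of the sign function of
a CM type whose stabilizer has index at most `n`. By Möbius inversion over the normal subgroups `N` of
index at most `n!` each `t_i` is in a canonical way an integral combination, of bounded length, of the
elementary functions `|D| (1_O - 1_{cO}) / M` for the double cosets `O` in `D \ G / N`. The elementary
functions are mean values of CM types as well: to show this, a totally real field of degree `2 M` in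
which `p` is inert is added to the CM field. So the relation is an integral combination of relations of
bounded length between mean values of CM types of fields of bounded degree, and of pairs `f, -f`. A
relation of bounded length between the mean values of CM types over `D` is then lifted to a relation
between CM types: one can choose other CM types, of a field of bounded degree, with the same mean values
(so that their reductions are isogenous, by Honda and Tate) whose sign functions have the sum zero
(`lift_group`; each orbit of `D` is distributed cyclically). Such relations give Hodge classes on abelian
varieties of CM type of bounded dimension.
-/

set_option autoImplicit false

namespace Pool.Agent.Results.MP_ee618e_ag.HodgeInBoundedDimension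

open Module Pool.Agent.W495.TA Pool.Agent.R937.HB

/-- **Tate classes on abelian varieties over finite fields with simple factors of bounded dimension**
are generated by divisor classes and by reductions of Hodge classes on abelian varieties of CM type of
bounded dimension. -/
theorem result (n : ℕ) (hn : 0 < n) : ∃ B : ℕ, ∀ (p : ℕ) [Fact p.Prime] (ν : PadicAlgCl p ≃+* ℂ)
    (Ω : Type) [Field Ω] [IsAlgClosed Ω] [CharZero Ω] (Y : RedAV p ν)
    (_ : ∀ i, finrank ℚ (Y.X.factor i).E ≤ n) (s m : ℕ) (_ : 0 < s)
    (f : (TM Ω Y) [⋀^Fin (2 * m)]→ₗ[Ω] Ω), IsTateClass Ω Y s m f → AlgH Ω B Y (Fin (2 * m)) f :=
  ⟨BH n, fun _ _ _ _ _ _ _ Y hY s m hs f hf => main hn Y hY s m hs f hf⟩

end Pool.Agent.Results.MP_ee618e_ag.HodgeInBoundedDimension
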