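import Pool.Agent.R940.ZFin

/-!
# Tate classes on the products of an arbitrary abelian variety with the powers of another one

Let `X` and `Z` be abelian varieties over a finite field (or, more generally, any smooth projective
varieties over a finite field), `b` the total Betti number of `X` and `D` a common denominator of the Newton slopes of `X` (`D = e * b!` always is one, `q = p ^ e`). Put

    `N = 2 b (4 D b ^ 2 + 4 D dim Z + 1) ^ b`.

* All generalised Tate classes (generalised eigenvectors of Frobenius) on `Z × X ^ n`, for all `n`,
  belong to the algebra generated by the pull-backs, under the projections to `Z × X ^ m`, `m ≤ N`, of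
  generalised Tate classes on `Z × X ^ m`; so the formula for the orders of the poles of the zeta
  function (order = rank of the cycles modulo numerical equivalence) for the one variety
  `Z × X ^ N` implies it for `Z × X ^ n` for all `n`.
* If Frobenius acts semisimply on the cohomology of `X` (for instance if `X` is an abelian variety,
  a curve, or a product of such varieties; nothing is assumed about `Z`), then the same is true for the
  Tate classes themselves, and the Tate conjecture for the one variety `Z × X ^ N` implies the Tate
  conjecture for `Z × X ^ n` for all `n`.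

The number `N` depends only on the Betti number and the slopes of `X` and on the dimension of `Z`.
-/

open CategoryTheory AlgebraicGeometry

universe u v

namespace Pool.Agent.Results.MP_ee618e_ag.ProductsWithPowers

open Pool.Agent.H914 Pool.Agent.W534 Pool.Agent.Y163 Pool.Agent.R940 VarClass Obj WeilCohomology
open Module

/-- **Tate classes on the products of an arbitrary variety with the powers of a variety.** -/
theorem result {k : Type u} [Field k] {𝒱 : VarClass k} {ops : CycleOps 𝒱}
    {W : WeilCohomology.{u, v} ops} [IsAlgClosed W.K] {p : ℕ} [Fact p.Prime]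
    (Φ : FrobSystem W p) (σ : W.K →+* ℂ) (hRH : ∀ Y, RiemannHyp Φ σ Y)
    (X Z : 𝒱.Obj) (hX : HasIntegralPolys Φ σ X) (hZ : HasIntegralPolys Φ σ Z)
    (E : X.Cycles) (hE : X.IsCyc 1 E) (hbig : Big ops X E) :
    IsSlopeDenominator Φ σ X (Φ.e X * (finrank W.K (W.H X)).factorial) ∧
    ∀ D, IsSlopeDenominator Φ σ X D → ∀ N, N = mixedBound (finrank W.K (W.H X)) D Z.dim →
      (∀ n c, IsGenClass Φ (Z.prod (pw X n)) c →
        c ∈ Algebra.adjoin W.K {c | IsPulledFrom W Z X (IsGenClass Φ) N n c}) ∧
      ((∀ j, j ≤ (Z.prod (pw X (N - 1))).dim → PoleFormula Φ σ (Z.prod (pw X (N - 1))) j) →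
        ∀ n j, j ≤ (Z.prod (pw X n)).dim → PoleFormula Φ σ (Z.prod (pw X n)) j) ∧
      (FrobIsSemisimple Φ X →
        (∀ n c, IsTateCls Φ (Z.prod (pw X n)) c →
          c ∈ Algebra.adjoin W.K {c | IsPulledFrom W Z X (IsTateCls Φ) N n c}) ∧
        ((∀ j, TateIn Φ (Z.prod (pw X (N - 1))) j) → ∀ n j, TateIn Φ (Z.prod (pw X n)) j)) := by
  refine ⟨slopeDenominator (hRH X) hX, fun D hD N hN => ?_⟩
  subst hN
  exact zmain hRH hX hE hbig hZ hD

end Pool.Agent.Results.MP_ee618e_ag.ProductsWithPowers
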